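import Mathlib

/-!
# Strict equilibria in induced subgames do not force generalized weak acyclicity

For every number of players `n ≥ 3` there is an `n`-player game, with exactly three actions per
player, all of whose induced subgames have a strict pure Nash equilibrium, but which is not
generalized weakly acyclic.

The game: players `0, 1, 2` sit on a directed cycle (`p` = predecessor, `s` = successor).
The unique best response to `(p, s)` is
* `0` if both play `0`;
* `2` if the nonzero actions among `p, s` are all `1`;
* `1` if the nonzero actions among `p, s` are all `2`;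
* the action of the predecessor `p` if `{p, s} = {1, 2}`.
All further players have `0` as dominant action.  The set of profiles in which both `1` and `2`
are played by players `0, 1, 2` is closed under the satisficing dynamics, and contains no
equilibrium.
-/

set_option autoImplicit false

namespace Pool.Agent.Results.MP_f1fe0b_lc.Disproof

/-- A normal-form game with set of players `ι` and action sets `A i`: the family of the real
reward functions of the players, defined on action profiles. -/
abbrev Game {ι : Type} (A : ι → Type) : Type := ι → (∀ j, A j) → ℝ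

section
variable {ι : Type} [DecidableEq ι] {A : ι → Type}

/-- The action `b` of player `i` is a best response to `a^{-i}`. -/
def IsBest (r : Game A) (i : ι) (a : ∀ j, A j) (b : A i) : Prop :=
  ∀ c : A i, r i (Function.update a i c) ≤ r i (Function.update a i b)

/-- Player `i` is satisfied at the profile `a`: `a i` is a best response to `a^{-i}`. -/
def Satisfied (r : Game A) (a : ∀ j, A j) (i : ι) : Prop := IsBest r i a (a i)

/-- `a` is a pure Nash equilibrium: every player is satisfied. -/
def IsNash (r : Game A) (a : ∀ j, A j) : Prop := ∀ i, Satisfied r a i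

/-- `a` is a strict pure Nash equilibrium: for every player `i`, `a i` is the one and only best
response to `a^{-i}`. -/
def IsStrictNash (r : Game A) (a : ∀ j, A j) : Prop := ∀ i, ∀ b : A i, IsBest r i a b ↔ b = a i

/-- Edges of the satisficing graph: satisfied players keep their actions. -/
def SatEdge (r : Game A) (a b : ∀ j, A j) : Prop := ∀ i, Satisfied r a i → b i = a i

/-- Generalized weak acyclicity: from every profile there is a directed path (possibly of
length zero) of the satisficing graph to a pure Nash equilibrium. -/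
def GenWeaklyAcyclic (r : Game A) : Prop :=
  ∀ a : ∀ j, A j, ∃ b : ∀ j, A j, Relation.ReflTransGen (SatEdge r) a b ∧ IsNash r b

end

section
variable {ι : Type} {A : ι → Type}

open Classical in
/-- The profile that agrees with `x` on `N` and with `a` outside `N`. -/
noncomputable def combine (N : Set ι) (a : ∀ j, A j) (x : ∀ i : N, A i.1) : ∀ j, A j :=
  fun j => if h : j ∈ N then x ⟨j, h⟩ else a j

/-- The induced subgame with set of players `N` (same action sets), in which the players outside
`N` play according to `a`. -/
noncomputable def induced (r : Game A) (N : Set ι) (a : ∀ j, A j) :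
    Game (fun i : N => A i.1) :=
  fun i x => r i.1 (combine N a x)

/-- Every induced subgame (for every set `N` of players, the empty set and the set of all
players included, and all fixed actions of the other players) has a strict pure Nash
equilibrium. -/
def EveryInducedSubgameStrict [DecidableEq ι] (r : Game A) : Prop :=
  ∀ (N : Set ι) (a : ∀ j, A j), ∃ x : (∀ i : N, A i.1), IsStrictNash (induced r N a) x

end

/-! ### Proof -/

section
variable {ι : Type} {A : ι → Type}

theorem combine_update [DecidableEq ι] (N : Set ι) (a : ∀ j, A j) (x : ∀ i : N, A i.1) (i : N)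
    (c : A i.1) :
    combine N a (Function.update x i c) = Function.update (combine N a x) i.1 c := by
  funext j
  unfold combine
  by_cases hj : j = i.1
  · subst hj
    simp
  · by_cases h : j ∈ N
    · have : (⟨j, h⟩ : N) ≠ i := fun h' => hj (congrArg Subtype.val h')
      simp [h, hj, this]
    · simp [h, hj]

theorem induced_isBest [DecidableEq ι] (r : Game A) (N : Set ι) (a : ∀ j, A j)
    (x : ∀ i : N, A i.1) (i : N) (b : A i.1) :
    IsBest (induced r N a) i x b ↔ IsBest r i.1 (combine N a x) b := by
  unfold IsBest induced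
  simp only [combine_update]

/-- the game given by best-response functions -/
noncomputable def ofBr (A : ι → Type) [∀ i, DecidableEq (A i)]
    (br : ∀ i, (∀ j, A j) → A i) : Game A :=
  fun i a => if a i = br i a then 1 else 0

theorem ofBr_isBest [DecidableEq ι] (A : ι → Type) [∀ i, DecidableEq (A i)]
    (br : ∀ i, (∀ j, A j) → A i)
    (hbr : ∀ i a c, br i (Function.update a i c) = br i a) (i : ι) (a : ∀ j, A j) (b : A i) :
    IsBest (ofBr A br) i a b ↔ b = br i a := by
  unfold IsBest ofBr
  constructor
  · intro h
    have h1 := h (br i a)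
    simp only [Function.update_self, hbr] at h1
    by_contra hne
    simp only [hne, if_true, if_false] at h1
    linarith
  · rintro rfl c
    simp only [Function.update_self, hbr]
    split_ifs <;> norm_num

end

/-- the table of best responses on the cycle, first argument: predecessor -/
def f (p s : Fin 3) : Fin 3 := ![![0, 2, 1], ![2, 2, 1], ![1, 2, 1]] p s

theorem base_sub : ∀ (N0 N1 N2 : Bool) (a0 a1 a2 : Fin 3), ∃ y0 y1 y2 : Fin 3,
    y0 = (if N0 then f y2 y1 else a0) ∧ y1 = (if N1 then f y0 y2 else a1) ∧
    y2 = (if N2 then f y1 y0 else a2) := by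
  decide

/-- the trap -/
def R0 (a0 a1 a2 : Fin 3) : Prop := (a0 = 1 ∨ a1 = 1 ∨ a2 = 1) ∧ (a0 = 2 ∨ a1 = 2 ∨ a2 = 2)

instance (a0 a1 a2 : Fin 3) : Decidable (R0 a0 a1 a2) := by unfold R0; infer_instance

theorem base_closed : ∀ a0 a1 a2 : Fin 3, R0 a0 a1 a2 → ∀ b0 b1 b2 : Fin 3,
    (a0 = f a2 a1 → b0 = a0) → (a1 = f a0 a2 → b1 = a1) → (a2 = f a1 a0 → b2 = a2) →
    R0 b0 b1 b2 := by
  decide

theorem base_notNash : ∀ a0 a1 a2 : Fin 3, R0 a0 a1 a2 →
    ¬ (a0 = f a2 a1 ∧ a1 = f a0 a2 ∧ a2 = f a1 a0) := by
  decide

/-- the best-response functions of the game with `m + 3` players -/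
def br (m : ℕ) (i : Fin (m + 3)) (a : Fin (m + 3) → Fin 3) : Fin 3 :=
  if i = 0 then f (a 2) (a 1) else if i = 1 then f (a 0) (a 2) else if i = 2 then f (a 1) (a 0)
  else 0

theorem val2 (m : ℕ) : ((2 : Fin (m + 3)) : ℕ) = 2 := by
  rw [Fin.coe_ofNat_eq_mod]
  exact Nat.mod_eq_of_lt (by omega)

theorem ne01 (m : ℕ) : (0 : Fin (m + 3)) ≠ 1 := by
  intro h; have := congrArg Fin.val h
  simp at this

theorem ne02 (m : ℕ) : (0 : Fin (m + 3)) ≠ 2 := by
  intro h; have := congrArg Fin.val h
  rw [val2] at this
  simp at this

theorem ne12 (m : ℕ) : (1 : Fin (m + 3)) ≠ 2 := by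
  intro h; have := congrArg Fin.val h
  rw [val2] at this
  simp at this

theorem br0 (m : ℕ) (a : Fin (m + 3) → Fin 3) : br m 0 a = f (a 2) (a 1) := by simp [br]
theorem br1 (m : ℕ) (a : Fin (m + 3) → Fin 3) : br m 1 a = f (a 0) (a 2) := by
  simp [br, (ne01 m).symm]
theorem br2 (m : ℕ) (a : Fin (m + 3) → Fin 3) : br m 2 a = f (a 1) (a 0) := by
  simp [br, (ne02 m).symm, (ne12 m).symm]

theorem br_update (m : ℕ) (i : Fin (m + 3)) (a : Fin (m + 3) → Fin 3) (c : Fin 3) :
    br m i (Function.update a i c) = br m i a := by
  have h01 := ne01 m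
  have h02 := ne02 m
  have h12 := ne12 m
  by_cases h0 : i = 0
  · subst h0
    rw [br0, br0, Function.update_of_ne h02.symm, Function.update_of_ne h01.symm]
  by_cases h1 : i = 1
  · subst h1
    rw [br1, br1, Function.update_of_ne h01, Function.update_of_ne h12.symm]
  by_cases h2 : i = 2
  · subst h2
    rw [br2, br2, Function.update_of_ne h12, Function.update_of_ne h02]
  simp [br, h0, h1, h2]

/-- the counterexample with `m + 3` players -/
noncomputable def G (m : ℕ) : Game (fun _ : Fin (m + 3) => Fin 3) :=
  ofBr (fun _ => Fin 3) (br m)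

theorem G_isBest (m : ℕ) (i : Fin (m + 3)) (a : Fin (m + 3) → Fin 3) (b : Fin 3) :
    IsBest (G m) i a b ↔ b = br m i a :=
  ofBr_isBest (fun _ => Fin 3) (br m) (fun i a c => br_update m i a c) i a b

theorem G_sub (m : ℕ) : EveryInducedSubgameStrict (G m) := by
  classical
  intro N a
  have h01 := ne01 m
  have h02 := ne02 m
  have h12 := ne12 m
  obtain ⟨y0, y1, y2, e0, e1, e2⟩ := base_sub (decide ((0 : Fin (m + 3)) ∈ N))
    (decide ((1 : Fin (m + 3)) ∈ N)) (decide ((2 : Fin (m + 3)) ∈ N)) (a 0) (a 1) (a 2)
  let y : Fin (m + 3) → Fin 3 := fun i => if i = 0 then y0 else if i = 1 then y1 else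
    if i = 2 then y2 else if i ∈ N then 0 else a i
  have hy0 : y 0 = y0 := by simp [y]
  have hy1 : y 1 = y1 := by simp [y, h01.symm]
  have hy2 : y 2 = y2 := by simp [y, h02.symm, h12.symm]
  have hyN : ∀ i, i ∉ N → y i = a i := by
    intro i hi
    by_cases h0 : i = 0
    · subst h0; rw [hy0, e0]; simp [hi]
    by_cases h1 : i = 1
    · subst h1; rw [hy1, e1]; simp [hi]
    by_cases h2 : i = 2
    · subst h2; rw [hy2, e2]; simp [hi]
    simp [y, h0, h1, h2, hi]
  have hyB : ∀ i, i ∈ N → y i = br m i y := by
    intro i hi
    by_cases h0 : i = 0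
    · subst h0; rw [br0, hy0, hy1, hy2]; simpa [hi] using e0
    by_cases h1 : i = 1
    · subst h1; rw [br1, hy0, hy1, hy2]; simpa [hi] using e1
    by_cases h2 : i = 2
    · subst h2; rw [br2, hy0, hy1, hy2]; simpa [hi] using e2
    simp [y, br, h0, h1, h2, hi]
  refine ⟨fun i => y i.1, ?_⟩
  intro i b
  have hc : combine N a (fun i : N => y i.1) = y := by
    funext j
    unfold combine
    by_cases hj : j ∈ N
    · simp [hj]
    · simp [hj, hyN j hj]
  rw [induced_isBest, hc, G_isBest, ← hyB i.1 i.2]

theorem G_not_gwa (m : ℕ) : ¬ GenWeaklyAcyclic (G m) := by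
  have h01 := ne01 m
  have h02 := ne02 m
  have h12 := ne12 m
  intro hG
  let P : (Fin (m + 3) → Fin 3) → Prop := fun a => R0 (a 0) (a 1) (a 2)
  have key : ∀ a b : Fin (m + 3) → Fin 3,
      Relation.ReflTransGen (SatEdge (G m)) a b → P a → P b := by
    intro a b hab
    induction hab with
    | refl => exact id
    | tail _ hbc ih =>
      rename_i b c _
      intro ha
      have hb := ih ha
      have hs : ∀ i, b i = br m i b → c i = b i := by
        intro i hi
        apply hbc i
        exact (G_isBest m i b (b i)).2 hi
      refine base_closed _ _ _ hb _ _ _ ?_ ?_ ?_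
      · intro h; exact hs 0 (by rw [br0]; exact h)
      · intro h; exact hs 1 (by rw [br1]; exact h)
      · intro h; exact hs 2 (by rw [br2]; exact h)
  let a : Fin (m + 3) → Fin 3 := fun i => if i = 0 then 0 else if i = 1 then 1 else
    if i = 2 then 2 else 0
  have ha : P a := by
    have : a 1 = 1 := by simp [a, h01.symm]
    have h' : a 2 = 2 := by simp [a, h02.symm, h12.symm]
    exact ⟨Or.inr (Or.inl this), Or.inr (Or.inr h')⟩
  obtain ⟨b, hab, hb⟩ := hG a
  have hPb := key a b hab ha
  apply base_notNash _ _ _ hPb
  refine ⟨?_, ?_, ?_⟩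
  · have := (G_isBest m 0 b (b 0)).1 (hb 0)
    exact this.trans (br0 m b)
  · have := (G_isBest m 1 b (b 1)).1 (hb 1)
    exact this.trans (br1 m b)
  · have := (G_isBest m 2 b (b 2)).1 (hb 2)
    exact this.trans (br2 m b)

/-- For every `n ≥ 3` there is an `n`-player game with exactly three actions per player in which
every induced subgame has a strict pure Nash equilibrium, but which is not generalized weakly
acyclic. -/
theorem result (n : ℕ) (hn : 3 ≤ n) :
    ∃ r : Game (fun _ : Fin n => Fin 3),
      EveryInducedSubgameStrict r ∧ ¬ GenWeaklyAcyclic r := by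
  obtain ⟨m, rfl⟩ := Nat.exists_eq_add_of_le' hn
  exact ⟨G m, G_sub m, G_not_gwa m⟩

end Pool.Agent.Results.MP_f1fe0b_lc.Disproof
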